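import Pool.Agent.H88.S3.Unl

/-!
# [H51 S3 UNP] MP_b39724_nt, stage 3, (3B) and (8.4) for every prime (also `p = 2`)

The theorems `fr`, `tbF`, `unl` of H88/S3 with the hypothesis `Two n chi` instead of `IsUnit 2`: `2` is invertible, or `n` is even, or `n = 1` and
`chi s` vanishes at `s`. So (8.4) holds for `p = 2` in the degrees `n + 1 = 2` (if `chi v (s v) = 0`) and `n + 1 = 3`: stage 3 for `p = 2` and `T` of class at most `3`.
For `p = 2` and `n + 1 = 4` it is false: `chi_a [b, [a, b]] = 1 / 2`, all other values `0`.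
-/

set_option autoImplicit false

open scoped Classical

noncomputable section

namespace H51.S3

open H62.BL H88.S3

variable {R : Type} [CommRing R]

theorem frp {B Om : Type} [AddCommGroup B] [Module R B]
    (de : FreeLieAlgebra R Om →ₗ[R] FreeLieAlgebra R Om →ₗ[R] B)
    (h1 : ∀ a b c, de ⁅a, b⁆ c = de a ⁅b, c⁆ - de b ⁅a, c⁆)
    (ha : ∀ u v : List Om, de (rb (FreeLieAlgebra.of R) u) (rb (FreeLieAlgebra.of R) v) +
      de (rb (FreeLieAlgebra.of R) v) (rb (FreeLieAlgebra.of R) u) = 0)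
    (h0 : ∀ u : List Om, de (rb (FreeLieAlgebra.of R) u) (rb (FreeLieAlgebra.of R) u) = 0) :
    ∃ Ps : FreeLieAlgebra R Om →ₗ[R] B, ∀ a b, Ps ⁅a, b⁆ = de a b := by
  have hs : ∀ a b, de a b + de b a = 0 := by
    intro a b
    have hA := fl_span a
    have hB := fl_span b
    induction hA using Submodule.span_induction with
    | mem a ha' =>
      obtain ⟨u, rfl⟩ := ha'
      induction hB using Submodule.span_induction with
      | mem b hb' =>
        obtain ⟨v, rfl⟩ := hb'
        exact ha u v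
      | zero => rw [map_zero, map_zero, LinearMap.zero_apply, add_zero]
      | add x y _ _ hx hy =>
        rw [map_add, map_add, LinearMap.add_apply, add_add_add_comm, hx, hy, add_zero]
      | smul r x _ hx => rw [map_smul, map_smul, LinearMap.smul_apply, ← smul_add, hx, smul_zero]
    | zero => rw [map_zero, map_zero, LinearMap.zero_apply, add_zero]
    | add x y _ _ hx hy =>
      rw [map_add, map_add, LinearMap.add_apply, add_add_add_comm, hx, hy, add_zero]
    | smul r x _ hx => rw [map_smul, map_smul, LinearMap.smul_apply, ← smul_add, hx, smul_zero]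
  refine ce_exists de (fun a => ?_) h1
  have hA := fl_span a
  induction hA using Submodule.span_induction with
  | mem a ha' =>
    obtain ⟨u, rfl⟩ := ha'
    exact h0 u
  | zero => rw [map_zero]
  | add x y _ _ hx hy =>
    have e : de (x + y) (x + y) = de x x + de y y + (de x y + de y x) := by
      rw [map_add, map_add, LinearMap.add_apply, LinearMap.add_apply]
      abel
    rw [e, hx, hy, hs, add_zero, add_zero]
  | smul r x _ hx => rw [map_smul, map_smul, LinearMap.smul_apply, hx, smul_zero, smul_zero]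

section tb

variable {Om B : Type} [AddCommGroup B] [Module R B]

/-- `2` is invertible, or `n` is even, or `n = 1` and `chi s` vanishes at `s` -/
def Two (n : ℕ) (chi : Om → LL R Om n →ₗ[R] B) : Prop :=
  IsUnit (2 : R) ∨ Even n ∨ (∀ (s : Om) (h : [s].length = n), chi s ⟨br [s], ll_mem h⟩ = 0) ∧ n = 1

/-- THEOREM (3B), the functionals `lam'` on the free Lie algebra -/
theorem tbP (n : ℕ) (hn : 1 ≤ n) (chi : Om → LL R Om n →ₗ[R] B) (h2 : Two n chi)
    (H : ∀ D : Fin (n + 1) → Om, ∃ lam : PS R (FreeLieAlgebra.of R : Fin (n + 1) → FreeLieAlgebra R (Fin (n + 1)))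
        (List.finRange (n + 1)) →ₗ[R] B,
      ∀ (k : Fin (n + 1)) (w : List (Fin (n + 1))) (h : (k :: w).Perm (List.finRange (n + 1))) (hw : w.length = n),
        chi (D k) ⟨br (w.map D), ll_mem (by rw [List.length_map, hw])⟩ =
          - lam ⟨rb (FreeLieAlgebra.of R) (k :: w), ps_mem _ h⟩) :
    ∃ lam : LL R Om (n + 1) →ₗ[R] B, ∀ (s : Om) (y : List Om → R) (hy : y ∈ LL R Om n),
      chi s ⟨y, hy⟩ = - lam ⟨AD s y, ad_ll s hy⟩ := by
  obtain ⟨de, hd, h1⟩ := der_exists fun s => xc n (chi s)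
  have ha : ∀ u v : List Om, de (rb (FreeLieAlgebra.of R) u) (rb (FreeLieAlgebra.of R) v) +
      de (rb (FreeLieAlgebra.of R) v) (rb (FreeLieAlgebra.of R) u) = 0 := by
    intro u v
    by_cases huv : u.length + v.length = n + 1
    · by_cases hu : u = []
      · subst hu
        have : rb (FreeLieAlgebra.of R : Om → FreeLieAlgebra R Om) [] = 0 := rfl
        rw [this, map_zero, map_zero, LinearMap.zero_apply, add_zero]
      by_cases hv : v = []
      · subst hv
        have : rb (FreeLieAlgebra.of R : Om → FreeLieAlgebra R Om) [] = 0 := rfl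
        rw [this, map_zero, map_zero, LinearMap.zero_apply, add_zero]
      have hlen : (u ++ v).length = n + 1 := by rw [List.length_append]; exact huv
      let D : Fin (n + 1) → Om := fun i => (u ++ v).get (i.cast hlen.symm)
      have hD : (List.finRange (n + 1)).map D = u ++ v := by
        refine List.ext_getElem (by simp [hlen]) fun i h1 h2 => ?_
        simp [D]
      set u0 := (List.finRange (n + 1)).take u.length with hu0
      set v0 := (List.finRange (n + 1)).drop u.length with hv0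
      have e0 : u0 ++ v0 = List.finRange (n + 1) := List.take_append_drop _ _
      have eu : u0.map D = u := by rw [hu0, List.map_take, hD, List.take_left']; rfl
      have ev' : v0.map D = v := by rw [hv0, List.map_drop, hD, List.drop_left']; rfl
      have hu0' : u0 ≠ [] := fun h => hu (by rw [← eu, h]; rfl)
      have hv0' : v0 ≠ [] := fun h => hv (by rw [← ev', h]; rfl)
      obtain ⟨lamF, H'⟩ := H D
      let P : FreeLieAlgebra R (Fin (n + 1)) →ₗ⁅R⁆ FreeLieAlgebra R Om := FreeLieAlgebra.lift R fun k => FreeLieAlgebra.of R (D k)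
      have hP : ∀ k, P (FreeLieAlgebra.of R k) = FreeLieAlgebra.of R (D k) := fun k => FreeLieAlgebra.lift_of_apply _ _
      have hPw : ∀ w : List (Fin (n + 1)), P (rb (FreeLieAlgebra.of R) w) = rb (FreeLieAlgebra.of R) (w.map D) := by
        intro w
        rw [rb_map, funext hP]
        induction w with
        | nil => rfl
        | cons a w ih =>
          by_cases hw : w = []
          · subst hw; rfl
          · rw [rb_cons _ a hw, ih, List.map_cons, rb_cons _ _ (by simpa using hw)]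
      have m1 : ⁅rb (FreeLieAlgebra.of R) u0, rb (FreeLieAlgebra.of R) v0⁆ ∈
          PS R (FreeLieAlgebra.of R : Fin (n + 1) → FreeLieAlgebra R (Fin (n + 1))) (List.finRange (n + 1)) := by
        have := ps_lie1 (R := R) (FreeLieAlgebra.of R) u0 (ps_mem (R := R) (FreeLieAlgebra.of R) (List.Perm.refl v0))
        rw [e0] at this
        exact this
      have m2 : ⁅rb (FreeLieAlgebra.of R) v0, rb (FreeLieAlgebra.of R) u0⁆ ∈
          PS R (FreeLieAlgebra.of R : Fin (n + 1) → FreeLieAlgebra R (Fin (n + 1))) (List.finRange (n + 1)) := by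
        rw [← lie_skew]
        exact Submodule.neg_mem _ m1
      have r1 := de_mul hn hd h1 D lamF H' P hP u0 hu0' v0 (by rw [e0]) _ (ps_mem _ (List.Perm.refl v0)) m1
      have r2 := de_mul hn hd h1 D lamF H' P hP v0 hv0' u0 (by rw [← e0]; exact List.perm_append_comm) _
        (ps_mem _ (List.Perm.refl u0)) m2
      rw [hPw, hPw, eu, ev'] at r1 r2
      rw [r1, r2]
      have : (⟨_, m2⟩ : PS R (FreeLieAlgebra.of R : Fin (n + 1) → FreeLieAlgebra R (Fin (n + 1))) (List.finRange (n + 1))) =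
        - ⟨_, m1⟩ := Subtype.ext (lie_skew _ _).symm
      rw [this, map_neg]
      abel
    · rw [de_zero hd h1 u v huv _ (ps_mem _ (List.Perm.refl v)),
        de_zero hd h1 v u (by omega) _ (ps_mem _ (List.Perm.refl u)), add_zero]
  have h0 : ∀ u : List Om, de (rb (FreeLieAlgebra.of R) u) (rb (FreeLieAlgebra.of R) u) = 0 := by
    intro u
    rcases h2 with h2 | h2 | ⟨h2, rfl⟩
    · have h3 := ha u u
      rw [← two_smul R] at h3
      obtain ⟨t, ht⟩ := h2.exists_left_inv
      rw [← one_smul R (de (rb (FreeLieAlgebra.of R) u) (rb (FreeLieAlgebra.of R) u)), ← ht, mul_smul, h3, smul_zero]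
    · refine de_zero hd h1 u u ?_ _ (ps_mem _ (List.Perm.refl u))
      obtain ⟨k, hk⟩ := h2
      omega
    · by_cases hu : u.length = 1
      · obtain ⟨s, rfl⟩ := List.length_eq_one_iff.1 hu
        have e : rb (FreeLieAlgebra.of R : Om → FreeLieAlgebra R Om) [s] = FreeLieAlgebra.of R s := rfl
        have h3 := xc_rb 1 (chi s) [s] rfl
        rw [e] at h3 ⊢
        rw [hd, h3]
        exact h2 s rfl
      · exact de_zero hd h1 u u (by omega) _ (ps_mem _ (List.Perm.refl u))
  obtain ⟨Ps, hPs⟩ := frp de h1 ha h0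
  obtain ⟨lam, hlam⟩ := ll_map (FreeLieAlgebra.of R : Om → FreeLieAlgebra R Om) Ps (n + 1)
  refine ⟨-lam, fun s y hy => ?_⟩
  rw [LinearMap.neg_apply, neg_neg]
  have e : chi s = lam.comp (((AD s).domRestrict (LL R Om n)).codRestrict (LL R Om (n + 1)) fun y => ad_ll s y.2) := by
    refine ll_ext fun w hw => ?_
    have hw0 : w ≠ [] := fun h => by rw [h, List.length_nil] at hw; omega
    have e2 : lam ⟨br (s :: w), ll_mem (by rw [List.length_cons, hw])⟩ = chi s ⟨br w, ll_mem hw⟩ := by
      rw [hlam (s :: w) (by rw [List.length_cons, hw]), rb_cons _ s hw0, hPs, hd, xc_rb n _ _ hw]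
    rw [← e2]
    exact congrArg lam (Subtype.ext (AD_br s hw0).symm)
  rw [e]
  rfl

end tb

section unl

variable {G Om : Type} [Group G] [MulAction G Om] {ι : Type} {B : Type} [AddCommGroup B] [Module R B]

variable {s : ι → Om} {n : ℕ} {chi : ι → LL R Om n →ₗ[R] B} {kap : G → LL R Om (n + 1) →ₗ[R] B}

/-- THEOREM ((8.4) of think 1707): all tuples unlinked gives a survivor. -/
theorem unp (hn : 1 ≤ n) (hocc : ∀ (a : Om) (F : Finset ι), F.card ≤ n + 1 → ∃ v, v ∉ F ∧ s v = a)
    (H : ∀ D : Fin (n + 1) → ι, Function.Injective D → ∃ lam, P1 (G := G) s chi D lam ∧ P2 s kap D lam)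
    (h2 : IsUnit (2 : R) ∨ Even n ∨ (∀ (v : ι) (h : [s v].length = n), chi v ⟨br [s v], ll_mem h⟩ = 0) ∧ n = 1) :
    ∃ la : LL R Om (n + 1) →ₗ[R] B, (∀ (v : ι) (y : List Om → R) (hy : y ∈ LL R Om n), chi v ⟨y, hy⟩ = - la ⟨AD (s v) y, ad_ll _ hy⟩) ∧
      ∀ (u : G) (x : List Om → R) (hx : x ∈ LL R Om (n + 1)), kap u ⟨x, hx⟩ = la ⟨qa u⁻¹ x, qa_ll _ hx⟩ - la ⟨x, hx⟩ := by
  have hex : ∀ a : Om, ∃ v, s v = a := fun a => by
    obtain ⟨v, _, hv⟩ := hocc a ∅ (by simp)
    exact ⟨v, hv⟩
  choose sg hsg using hex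
  have hB : ∀ {v v' : ι}, s v = s v' → chi v = chi v' := fun h => claimB hn hocc H h
  have hchi : ∀ v, chi v = chi (sg (s v)) := fun v => hB (hsg (s v)).symm
  obtain ⟨la, hla⟩ := tbP n hn (fun a => chi (sg a)) (by
    rcases h2 with h2 | h2 | ⟨h2, h3⟩
    · exact Or.inl h2
    · exact Or.inr (Or.inl h2)
    · refine Or.inr (Or.inr ⟨fun a h => ?_, h3⟩)
      have h4 := h2 (sg a) (by simpa using h)
      have h5 : (⟨br [s (sg a)], ll_mem (by simpa using h)⟩ : LL R Om n) = ⟨br [a], ll_mem h⟩ := Subtype.ext (by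
        show (br [s (sg a)] : List Om → R) = br [a]
        rw [hsg])
      rw [← h5]
      exact h4) (fun D0 => by
    obtain ⟨D, hD, _, hs⟩ := pick s (n + 1) hocc (n + 1) D0 ∅ (by rw [Finset.card_empty]; omega)
    obtain ⟨lam, a1, _⟩ := H D hD
    let Le : FreeLieAlgebra R (Fin (n + 1)) →ₗ⁅R⁆ FreeLieAlgebra R (Fin (n + 1) × G) :=
      FreeLieAlgebra.lift R fun k => FreeLieAlgebra.of R (k, 1)
    have hLe : ∀ w : List (Fin (n + 1)), Le (rb (FreeLieAlgebra.of R) w) = rb (FreeLieAlgebra.of R) (w.map fun k => (k, (1 : G))) := by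
      intro w
      have e : (fun k => Le (FreeLieAlgebra.of R k)) = fun k : Fin (n + 1) => FreeLieAlgebra.of R (k, (1 : G)) :=
        funext fun k => FreeLieAlgebra.lift_of_apply _ _
      rw [rb_map, e]
      induction w with
      | nil => rfl
      | cons a w ih =>
        by_cases hw : w = []
        · subst hw; rfl
        · rw [rb_cons _ a hw, ih, List.map_cons, rb_cons _ _ (by simpa using hw)]
    refine ⟨(lam.comp (ev.comp (Le : FreeLieAlgebra R (Fin (n + 1)) →ₗ[R] FreeLieAlgebra R (Fin (n + 1) × G)))).domRestrict _,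
      fun k w h hw => ?_⟩
    have hm : (w.map fun k => (k, (1 : G))).map (ew s D) = w.map D0 := by
      rw [List.map_map]
      refine List.map_congr_left fun j _ => ?_
      show (1 : G) • s (D j) = D0 j
      rw [one_smul, hs]
    have r1 := a1 k (w.map fun k => (k, 1)) (by
      rw [List.map_map]
      have : (Prod.fst ∘ fun k : Fin (n + 1) => (k, (1 : G))) = id := rfl
      rw [this, List.map_id]
      exact h)
    rw [hm, wv_eq (chi (D k)) (by rw [List.length_map, hw])] at r1
    have e1 : chi (sg (D0 k)) = chi (D k) := hB (by rw [hsg, hs])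
    rw [e1, r1]
    congr 1
    show lam (br ((k, 1) :: w.map fun k => (k, 1))) = lam (ev (Le (rb (FreeLieAlgebra.of R) (k :: w))))
    rw [hLe, ev_rb]
    rfl)
  have c1 : ∀ (v : ι) (y : List Om → R) (hy : y ∈ LL R Om n), chi v ⟨y, hy⟩ = - la ⟨AD (s v) y, ad_ll _ hy⟩ := by
    intro v y hy
    rw [hchi v, hla]
  refine ⟨la, c1, fun u x hx => ?_⟩
  let T : LL R Om (n + 1) →ₗ[R] B :=
    { toFun := fun x => la ⟨qa u⁻¹ x.1, qa_ll _ x.2⟩ - la x
      map_add' := fun x y => by
        have : (⟨qa u⁻¹ (x + y).1, qa_ll _ (x + y).2⟩ : LL R Om (n + 1)) = ⟨qa u⁻¹ x.1, qa_ll _ x.2⟩ + ⟨qa u⁻¹ y.1, qa_ll _ y.2⟩ := rfl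
        rw [this, map_add, map_add]
        abel
      map_smul' := fun r x => by
        have : (⟨qa u⁻¹ (r • x).1, qa_ll _ (r • x).2⟩ : LL R Om (n + 1)) = r • ⟨qa u⁻¹ x.1, qa_ll _ x.2⟩ := rfl
        rw [this, map_smul, map_smul, RingHom.id_apply, smul_sub] }
  have hT : kap u = T := by
    refine ll_ext fun w hw => ?_
    rcases w with _ | ⟨a, w⟩
    · simp at hw
    have hw' : w.length = n := by simpa using hw
    have hw0 : w ≠ [] := fun h => by rw [h, List.length_nil] at hw'; omega
    have r := claimA hn hocc H (v := sg a) (v' := sg (u⁻¹ • a)) (u := u⁻¹) (by rw [hsg, hsg]) (w.map fun b => u⁻¹ • b)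
      (by rw [List.length_map, hw'])
    have em : (w.map fun b => u⁻¹ • b).map (fun b => (u⁻¹)⁻¹ • b) = w := by
      rw [List.map_map]
      refine (List.map_congr_left fun x _ => ?_).trans (List.map_id _)
      show (u⁻¹)⁻¹ • u⁻¹ • x = x
      rw [inv_inv, smul_inv_smul]
    rw [em, inv_inv, hsg, wv_eq (chi (sg a)) hw', wv_eq (chi (sg (u⁻¹ • a))) (by rw [List.length_map, hw']),
      wv_eq (kap u) (w := a :: w) hw, c1, c1, neg_neg, neg_neg] at r
    have e1 : (⟨AD (s (sg a)) (br w), ad_ll _ (ll_mem hw')⟩ : LL R Om (n + 1)) = ⟨br (a :: w), ll_mem hw⟩ := Subtype.ext (by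
      show AD (s (sg a)) (br w) = br (a :: w)
      rw [hsg, AD_br a hw0])
    have e2 : (⟨AD (s (sg (u⁻¹ • a))) (br (w.map fun b => u⁻¹ • b)), ad_ll _ (ll_mem (by rw [List.length_map, hw']))⟩ :
        LL R Om (n + 1)) = ⟨qa u⁻¹ (br (a :: w)), qa_ll _ (ll_mem hw)⟩ := Subtype.ext (by
      show AD (s (sg (u⁻¹ • a))) (br (w.map fun b => u⁻¹ • b)) = qa u⁻¹ (br (a :: w))
      rw [hsg, AD_br _ (by simpa using hw0), qa_br]
      rfl)
    rw [e1, e2] at r
    show kap u ⟨br (a :: w), ll_mem hw⟩ = la ⟨qa u⁻¹ (br (a :: w)), qa_ll _ (ll_mem hw)⟩ - la ⟨br (a :: w), ll_mem hw⟩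
    rw [← r]
    abel
  rw [hT]
  rfl

end unl

end H51.S3
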