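import Pool.Agent.H73.S3.Fou

/-!
# [H51 S3 HSE] MP_b39724_nt, stage 3, the prime 2: the functionals of degree 1 vanish at the own letter

`gs`: the conditions `G` do not change if `x j` is replaced by `x j * t j`, `j` large and split (the local condition is `[t, x] = 1`).
`hh_self`: if `Hh 1 τ x η ≠ 0` then `(η j).1` vanishes at the class of `y j` (`j` large and split).
-/

set_option autoImplicit false

open scoped commutatorElement
open scoped Classical

noncomputable section

namespace H51.S3

open H1.S3 H73.S3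

variable {S P : Type} [Group S] [Group P] [MulDistribMulAction P S] {J V : Type}

/-- the value at `j` is multiplied by `t j` -/
def xt (X : AD S P J V) (j : J) (x : J → SP S P) : J → SP S P := Function.update x j (x j * X.t j)

theorem bk_xt (X : AD S P J V) (j : J) (x : J → SP S P) (v : V) : X.bk (xt X j x) v = X.bk x v := by
  unfold AD.bk wd
  congr 1
  refine List.map_congr_left fun i _ => ?_
  unfold xt
  by_cases h : i = j
  · subst h
    rw [Function.update_self]
    simp only [commutatorElement_def]
    group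
  · rw [Function.update_of_ne h]

theorem rr_xt (X : AD S P J V) (τ : V → S) (j : J) (x : J → SP S P) :
    X.RR τ (xt X j x) = X.RR τ x := by
  unfold AD.RR
  simp only [bk_xt]

theorem mv_xt (X : AD S P J V) (j : J) (u : X.Jf → S) (x : J → SP S P) :
    X.mv u (xt X j x) = xt X j (X.mv u x) := by
  funext i
  unfold xt AD.mv
  by_cases h : i = j
  · subst h
    rw [Function.update_self, Function.update_self]
    split_ifs
    · rw [mul_assoc]
    · rfl
  · rw [Function.update_of_ne h, Function.update_of_ne h]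

theorem g_xt [Finite S] (X : AD S P J V) {j : J} (ht : X.t j = il (X.y j))
    (gs : ∀ x, X.G x → X.G (Function.update x j (x j * X.t j))) (x : J → SP S P) :
    X.G (xt X j x) ↔ X.G x := by
  refine ⟨fun h => ?_, gs x⟩
  have h1 : ∀ (k : ℕ), X.G (Function.update x j (x j * X.t j ^ (k + 1))) := by
    intro k
    induction k with
    | zero => rw [zero_add, pow_one]; exact h
    | succ k ih =>
      have h2 := gs _ ih
      rw [Function.update_self, Function.update_idem] at h2
      rw [pow_succ, ← mul_assoc]
      exact h2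
  have h3 : X.t j ^ Nat.card S = 1 := by
    rw [ht]
    have := map_pow (SemidirectProduct.inl : S →* SP S P) (X.y j) (Nat.card S)
    rw [pow_card_eq_one', map_one] at this
    exact this.symm
  have h4 := h1 (Nat.card S - 1)
  rw [Nat.sub_add_cancel Nat.card_pos, h3, mul_one, Function.update_eq_self] at h4
  exact h4

theorem h_xt [Fintype S] (X : AD S P J V) {j : J} (ht : X.t j = il (X.y j))
    (gs : ∀ x, X.G x → X.G (Function.update x j (x j * X.t j))) (m : ℕ) (τ : V → S)
    (x : J → SP S P) : X.H m τ (xt X j x) = X.H m τ x := by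
  unfold AD.H
  simp only [mv_xt, rr_xt, g_xt X ht gs]

theorem hh_self [Fintype S] (X : AD S P J V) {q : ℕ} [NeZero q] (τ : V → S) (x : J → SP S P)
    (η : X.Jf → Du S q 1 × Du S q (1 + 1)) (h : X.Hh 1 τ x η ≠ 0) (j : X.Jf) (hj : X.pp j)
    (hr : (x j).right = 1) (ht : X.t j = il (X.y j))
    (gs : ∀ x, X.G x → X.G (Function.update x j (x j * X.t j))) :
    (η j).1.ap (gk 1 (X.y j)) = 0 := by
  obtain ⟨w, hw⟩ : ∃ w : X.Jf → S, w = fun i => if i = j then (x j).left * X.y j * (x j).left⁻¹ else 1 :=
    ⟨_, rfl⟩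
  have hwj : w j = (x j).left * X.y j * (x j).left⁻¹ := by rw [hw]; exact if_pos rfl
  have hwi : ∀ i, i ≠ j → w i = 1 := fun i hi => by rw [hw]; exact if_neg hi
  have htop : ∀ s : S, s ∈ gm S 1 := fun s => by rw [gm_one]; exact Subgroup.mem_top s
  have hwc : w ∈ X.Cg 1 := by
    unfold AD.Cg
    rw [Finset.mem_filter]
    refine ⟨Finset.mem_univ _, fun i => ?_⟩
    by_cases hi : i = j
    · subst hi
      rw [if_pos hj]
      exact htop _
    · rw [hwi i hi]
      exact one_mem _
  have hx : x j = il (x j).left := by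
    ext
    · rfl
    · exact hr
  have hmw : X.mv w x = xt X j x := by
    funext i
    unfold AD.mv xt
    by_cases hi : i = j
    · subst hi
      rw [Function.update_self, dif_pos j.2, hwj, ht]
      have e : ∀ a b : S, (il (a * b * a⁻¹) : SP S P) * il a = il a * il b := fun a b => by
        show (SemidirectProduct.inl (a * b * a⁻¹) : SP S P) * SemidirectProduct.inl a =
          SemidirectProduct.inl a * SemidirectProduct.inl b
        rw [← map_mul, ← map_mul, inv_mul_cancel_right]
      rw [hx]
      exact e _ _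
    · rw [Function.update_of_ne hi]
      split_ifs with h2
      · rw [hwi ⟨i, h2⟩ fun h3 => hi (by rw [← h3])]
        show (SemidirectProduct.inl (1 : S) : SP S P) * x i = x i
        rw [map_one, one_mul]
      · rfl
  have hH : ∀ u : X.Jf → S, X.H (1 + 1) τ (X.mv (u * w) x) = X.H (1 + 1) τ (X.mv u x) := fun u => by
    rw [← mv_mv, hmw, mv_xt, h_xt X ht gs]
  have hpr : ∀ u ∈ X.Cg 1, X.pr η (u * w) = X.pr η u + (η j).1.ap (gk 1 (w j)) := by
    intro u hu
    unfold AD.pr
    have e : ∀ i : X.Jf, (if X.pp i then (η i).1.ap (gk 1 ((u * w) i)) else (η i).2.ap (gk (1 + 1) ((u * w) i))) =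
        (if X.pp i then (η i).1.ap (gk 1 (u i)) else (η i).2.ap (gk (1 + 1) (u i))) +
          if i = j then (η j).1.ap (gk 1 (w j)) else 0 := by
      intro i
      by_cases hi : i = j
      · subst hi
        rw [if_pos hj, if_pos hj, if_pos rfl, Pi.mul_apply, gk_mul (htop _) (htop _)]
        exact map_add _ _ _
      · rw [if_neg hi, add_zero, Pi.mul_apply, hwi i hi, mul_one]
    rw [Finset.sum_congr rfl fun i _ => e i, Finset.sum_add_distrib, Finset.sum_ite_eq' Finset.univ j,
      if_pos (Finset.mem_univ j)]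
  have hs : ∑ u ∈ X.Cg 1, X.H (1 + 1) τ (X.mv u x) * H63.MA.ep q (-X.pr η u) =
      ∑ u ∈ X.Cg 1, X.H (1 + 1) τ (X.mv (u * w) x) * H63.MA.ep q (-X.pr η (u * w)) := by
    symm
    refine Finset.sum_bij' (fun u _ => u * w) (fun u _ => u * w⁻¹) ?_ ?_ ?_ ?_ ?_
    · intro u hu
      exact cg_mul X hu hwc
    · intro u hu
      exact cg_mul X hu (cg_inv X hwc)
    · intro u _
      exact mul_inv_cancel_right u w
    · intro u _
      exact inv_mul_cancel_right u w
    · intro u _
      rfl
  have hs2 : X.Hh 1 τ x η = X.Hh 1 τ x η * H63.MA.ep q (-(η j).1.ap (gk 1 (w j))) := by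
    conv_lhs => unfold AD.Hh
    rw [hs]
    unfold AD.Hh
    rw [div_mul_eq_mul_div, Finset.sum_mul]
    congr 1
    refine Finset.sum_congr rfl fun u hu => ?_
    rw [hH, hpr u hu, neg_add, epq_add, mul_assoc]
  have h1 : H63.MA.ep q (-(η j).1.ap (gk 1 (w j))) = 1 := by
    have h2 : X.Hh 1 τ x η * (1 - H63.MA.ep q (-(η j).1.ap (gk 1 (w j)))) = 0 := by
      rw [mul_sub, mul_one, ← hs2, sub_self]
    rcases mul_eq_zero.1 h2 with h3 | h3
    · exact absurd h3 h
    · exact (sub_eq_zero.1 h3).symm
  have h4 : -(η j).1.ap (gk 1 (w j)) = 0 := by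
    apply ZMod.injective_stdAddChar
    rw [← H63.MA.rayc_std, h1, AddChar.map_zero_eq_one]
  rw [neg_eq_zero, hwj, gk_conj (htop _)] at h4
  exact h4

end H51.S3
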